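import Mathlib

set_option autoImplicit false

open Set Topology TopologicalSpace

namespace Pool.Agent.Results.MP_d4a483_lc.OCAMetrizable

/-! ### Definitions -/

/-- The **Open Coloring Axiom** of Todorcevic: if `E` is a separable metrizable space and `K` is a
symmetric open subset of `E × E`, then either there is an uncountable `Y ⊆ E` any two different
points of which form a pair in `K`, or `E` is a countable union of sets none of which contains two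
different points forming a pair in `K`. It is consistent relative to ZFC (Todorcevic 1989). -/
def OCA : Prop :=
  ∀ (E : Type) [TopologicalSpace E] [MetrizableSpace E] [SeparableSpace E] (K : Set (E × E)),
    IsOpen K → (∀ x y, (x, y) ∈ K → (y, x) ∈ K) →
      (∃ Y : Set E, ¬ Y.Countable ∧ ∀ x ∈ Y, ∀ y ∈ Y, x ≠ y → (x, y) ∈ K) ∨
      (∃ F : ℕ → Set E, (∀ x, ∃ n, x ∈ F n) ∧ ∀ n, ∀ x ∈ F n, ∀ y ∈ F n, x ≠ y → (x, y) ∉ K)

/-- A family of sets is incomparable if no member of it is contained in a different member. -/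
def Incomparable {X : Type*} (𝒜 : Set (Set X)) : Prop :=
  ∀ A ∈ 𝒜, ∀ B ∈ 𝒜, A ≠ B → ¬ A ⊆ B

/-- `Γ` has countable rank: for every point `x`, every incomparable subfamily of `Γ` whose members
all contain `x` is countable. -/
def CountableRank {X : Type*} (Γ : Set (Set X)) : Prop :=
  ∀ x : X, ∀ 𝒜 ⊆ Γ, (∀ A ∈ 𝒜, x ∈ A) → Incomparable 𝒜 → 𝒜.Countable

/-- `Γ` is Noetherian: it contains no infinite strictly increasing sequence. -/
def Noetherian {X : Type*} (Γ : Set (Set X)) : Prop :=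
  ¬ ∃ A : ℕ → Set X, (∀ n, A n ∈ Γ) ∧ ∀ n, A n ⊂ A (n + 1)

/-! ### The consequence of OCA that is used -/

/-- Under OCA, a family of subsets of a countable set with no uncountable incomparable subfamily
is a countable union of chains (version with codes `t a`). -/
theorem chains_of_OCA (hO : OCA) {κ : Type*} [Countable κ] {I : Type*} (S : Set I)
    (t : I → Set κ)
    (h : ∀ A : Set I, A ⊆ S → (∀ a ∈ A, ∀ b ∈ A, a ≠ b → ¬ (t a ⊆ t b)) → A.Countable) :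
    ∃ F : ℕ → Set I, (∀ a ∈ S, ∃ n, a ∈ F n) ∧
      ∀ n, F n ⊆ S ∧ ∀ a ∈ F n, ∀ b ∈ F n, t a ⊆ t b ∨ t b ⊆ t a := by
  classical
  obtain ⟨g, hg⟩ := exists_injective_nat κ
  -- the code
  let code : I → (ℕ → Bool) := fun a n => decide (∃ k : κ, g k = n ∧ k ∈ t a)
  have hcode : ∀ a k, code a (g k) = true ↔ k ∈ t a := by
    intro a k
    simp only [code, decide_eq_true_eq]
    constructor
    · rintro ⟨k', hk', hm⟩
      rwa [← hg hk']
    · intro hk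
      exact ⟨k, rfl, hk⟩
  have hsub : ∀ a b, t a ⊆ t b ↔ ∀ n, code a n = true → code b n = true := by
    intro a b
    constructor
    · intro hab n hn
      simp only [code, decide_eq_true_eq] at hn ⊢
      obtain ⟨k, hk, hm⟩ := hn
      exact ⟨k, hk, hab hm⟩
    · intro hab k hk
      exact (hcode b k).1 (hab _ ((hcode a k).2 hk))
  let E : Type := {x : ℕ → Bool // ∃ a ∈ S, code a = x}
  let K : Set (E × E) := {p | (∃ i, p.1.1 i = true ∧ p.2.1 i = false) ∧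
    (∃ j, p.1.1 j = false ∧ p.2.1 j = true)}
  have hcont1 : ∀ i, Continuous (fun p : E × E => p.1.1 i) := fun i =>
    (continuous_apply i).comp (continuous_subtype_val.comp continuous_fst)
  have hcont2 : ∀ i, Continuous (fun p : E × E => p.2.1 i) := fun i =>
    (continuous_apply i).comp (continuous_subtype_val.comp continuous_snd)
  have hKo : IsOpen K := by
    have e : K = (⋃ i, ((fun p : E × E => p.1.1 i) ⁻¹' {true} ∩
        (fun p : E × E => p.2.1 i) ⁻¹' {false})) ∩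
        (⋃ j, ((fun p : E × E => p.1.1 j) ⁻¹' {false} ∩
        (fun p : E × E => p.2.1 j) ⁻¹' {true})) := by
      ext p
      simp [K]
    rw [e]
    refine IsOpen.inter (isOpen_iUnion fun i => ?_) (isOpen_iUnion fun i => ?_)
    · exact ((isOpen_discrete _).preimage (hcont1 i)).inter
        ((isOpen_discrete _).preimage (hcont2 i))
    · exact ((isOpen_discrete _).preimage (hcont1 i)).inter
        ((isOpen_discrete _).preimage (hcont2 i))
  have hKs : ∀ x y, (x, y) ∈ K → (y, x) ∈ K := by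
    rintro x y ⟨⟨i, h1, h2⟩, ⟨j, h3, h4⟩⟩
    exact ⟨⟨j, h4, h3⟩, ⟨i, h2, h1⟩⟩
  have hmet0 : MetrizableSpace (ℕ → Bool) := metrizableSpace_of_t3_secondCountable _
  have hmet : MetrizableSpace E := Topology.IsEmbedding.subtypeVal.metrizableSpace
  have hsc : SecondCountableTopology E :=
    Topology.IsEmbedding.subtypeVal.secondCountableTopology
  rcases hO E K hKo hKs with ⟨Y, hYc, hY⟩ | ⟨F, hF, hFK⟩
  · exfalso
    choose r hrS hr using fun x : E => x.2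
    apply hYc
    have hrinj : Function.Injective r := by
      intro x y hxy
      apply Subtype.ext
      rw [← hr x, ← hr y, hxy]
    have hA : (r '' Y).Countable := by
      apply h
      · rintro _ ⟨y, _, rfl⟩
        exact hrS y
      · rintro _ ⟨x, hx, rfl⟩ _ ⟨y, hy, rfl⟩ hne hsu
        have hxy : x ≠ y := fun e => hne (by rw [e])
        obtain ⟨⟨i, h1, h2⟩, _⟩ := hY x hx y hy hxy
        have := (hsub _ _).1 hsu i (by rw [hr x]; exact h1)
        rw [hr y] at this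
        simp only at h2
        rw [this] at h2
        exact Bool.noConfusion h2
    exact countable_of_injective_of_countable_image hrinj.injOn hA
  · refine ⟨fun n => {a | ∃ ha : a ∈ S, (⟨code a, a, ha, rfl⟩ : E) ∈ F n}, ?_, ?_⟩
    · intro a ha
      obtain ⟨n, hn⟩ := hF ⟨code a, a, ha, rfl⟩
      exact ⟨n, ha, hn⟩
    · intro n
      refine ⟨fun a ha => ha.1, ?_⟩
      rintro a ⟨ha, haF⟩ b ⟨hb, hbF⟩
      by_contra hcon
      push Not at hcon
      obtain ⟨h1, h2⟩ := hcon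
      rw [hsub] at h1 h2
      push Not at h1 h2
      obtain ⟨i, hi1, hi2⟩ := h1
      obtain ⟨j, hj1, hj2⟩ := h2
      have hne : (⟨code a, a, ha, rfl⟩ : E) ≠ ⟨code b, b, hb, rfl⟩ := by
        intro e
        have := congrArg Subtype.val e
        simp only at this
        rw [this] at hi1
        exact hi2 hi1
      refine hFK n _ haF _ hbF hne ⟨⟨i, hi1, ?_⟩, ⟨j, ?_, hj1⟩⟩
      · simpa using hi2
      · simpa using hj2

/-- Under OCA, if moreover `S` is uncountable, there is an uncountable subset on which the codes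
form a chain. -/
theorem chain_of_OCA (hO : OCA) {κ : Type*} [Countable κ] {I : Type*} (S : Set I)
    (t : I → Set κ)
    (h : ∀ A : Set I, A ⊆ S → (∀ a ∈ A, ∀ b ∈ A, a ≠ b → ¬ (t a ⊆ t b)) → A.Countable)
    (hS : ¬ S.Countable) :
    ∃ T ⊆ S, ¬ T.Countable ∧ ∀ a ∈ T, ∀ b ∈ T, t a ⊆ t b ∨ t b ⊆ t a := by
  obtain ⟨F, hF, hFn⟩ := chains_of_OCA hO S t h
  by_contra hcon
  push Not at hcon
  apply hS
  have : ∀ n, (F n).Countable := by
    intro n
    by_contra hn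
    obtain ⟨a, ha, b, hb, h1, h2⟩ := hcon (F n) (hFn n).1 hn
    rcases (hFn n).2 a ha b hb with h3 | h3
    · exact h1 h3
    · exact h2 h3
  exact (countable_iUnion this).mono fun a ha => mem_iUnion.2 (hF a ha)

/-! ### Chains of sets determined by a sequence of points -/

section chains

variable {X : Type*} (u : ℕ → X)

/-- differences between members of `S` are detected by the points `u j` -/
def Detect (S : Set (Set X)) : Prop :=
  ∀ U ∈ S, ∀ W ∈ S, ¬ W ⊆ U → ∃ j, u j ∈ W ∧ u j ∉ U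

/-- `S` is a chain -/
def Chain' (S : Set (Set X)) : Prop := ∀ U ∈ S, ∀ W ∈ S, U ⊆ W ∨ W ⊆ U

variable {u}

theorem Detect.mono {S T : Set (Set X)} (h : Detect u T) (hST : S ⊆ T) : Detect u S :=
  fun U hU W hW => h U (hST hU) W (hST hW)

theorem Chain'.mono {S T : Set (Set X)} (h : Chain' T) (hST : S ⊆ T) : Chain' S :=
  fun U hU W hW => h U (hST hU) W (hST hW)

theorem exists_cofinal {S : Set (Set X)} (hd : Detect u S) (hc : Chain' S) :
    ∃ C ⊆ S, C.Countable ∧ ∀ U ∈ S, ∃ c ∈ C, U ⊆ c := by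
  by_cases hm : ∃ m ∈ S, ∀ a ∈ S, a ⊆ m
  · obtain ⟨m, hm, ha⟩ := hm
    exact ⟨{m}, by simpa using hm, countable_singleton m, fun U hU => ⟨m, rfl, ha U hU⟩⟩
  · push Not at hm
    refine ⟨⋃ j, {c | ∃ h : (∃ a, a ∈ S ∧ u j ∈ a), c = h.choose}, ?_, ?_, ?_⟩
    · intro c hc'
      obtain ⟨j, h, rfl⟩ := mem_iUnion.1 hc'
      exact h.choose_spec.1
    · refine countable_iUnion fun j => Set.Subsingleton.countable ?_
      rintro _ ⟨h, rfl⟩ _ ⟨_, rfl⟩
      rfl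
    · intro U hU
      obtain ⟨W, hW, hWU⟩ := hm U hU
      obtain ⟨j, hj1, hj2⟩ := hd U hU W hW hWU
      have h : ∃ a, a ∈ S ∧ u j ∈ a := ⟨W, hW, hj1⟩
      refine ⟨h.choose, mem_iUnion.2 ⟨j, h, rfl⟩, ?_⟩
      rcases hc U hU _ h.choose_spec.1 with h1 | h1
      · exact h1
      · exact absurd (h1 h.choose_spec.2) hj2

theorem exists_coinitial {S : Set (Set X)} (hd : Detect u S) (hc : Chain' S) :
    ∃ C ⊆ S, C.Countable ∧ ∀ U ∈ S, ∃ c ∈ C, c ⊆ U := by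
  by_cases hm : ∃ m ∈ S, ∀ a ∈ S, m ⊆ a
  · obtain ⟨m, hm, ha⟩ := hm
    exact ⟨{m}, by simpa using hm, countable_singleton m, fun U hU => ⟨m, rfl, ha U hU⟩⟩
  · push Not at hm
    refine ⟨⋃ j, {c | ∃ h : (∃ a, a ∈ S ∧ u j ∉ a), c = h.choose}, ?_, ?_, ?_⟩
    · intro c hc'
      obtain ⟨j, h, rfl⟩ := mem_iUnion.1 hc'
      exact h.choose_spec.1
    · refine countable_iUnion fun j => Set.Subsingleton.countable ?_
      rintro _ ⟨h, rfl⟩ _ ⟨_, rfl⟩
      rfl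
    · intro U hU
      obtain ⟨W, hW, hWU⟩ := hm U hU
      obtain ⟨j, hj1, hj2⟩ := hd W hW U hU hWU
      have h : ∃ a, a ∈ S ∧ u j ∉ a := ⟨W, hW, hj2⟩
      refine ⟨h.choose, mem_iUnion.2 ⟨j, h, rfl⟩, ?_⟩
      rcases hc _ h.choose_spec.1 U hU with h1 | h1
      · exact h1
      · exact absurd (h1 hj1) h.choose_spec.2

/-- An uncountable chain detected by a sequence contains a strictly increasing sequence. -/
theorem exists_increasing {S : Set (Set X)} (hd : Detect u S) (hc : Chain' S)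
    (hS : ¬ S.Countable) : ∃ f : ℕ → Set X, (∀ k, f k ∈ S) ∧ ∀ k, f k ⊂ f (k + 1) := by
  by_contra hcon
  apply hS
  have hwf : WellFounded (fun a b : S => (b : Set X) ⊂ a) := by
    rw [wellFounded_iff_isEmpty_descending_chain]
    refine ⟨fun x => hcon ⟨fun k => (x.1 k : Set X), fun k => (x.1 k).2, fun k => x.2 k⟩⟩
  have key : ∀ V ∈ S, (∀ Y ∈ S, V ⊆ Y) ∨ ∃ i, u i ∈ V ∧ ∀ Y ∈ S, Y ⊂ V → u i ∉ Y := by
    intro V hV
    by_cases hb : ∃ Y : S, (Y : Set X) ⊂ V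
    · right
      obtain ⟨M, hM, hMmax⟩ := hwf.has_min {Y : S | (Y : Set X) ⊂ V} hb
      obtain ⟨i, hi1, hi2⟩ := hd M.1 M.2 V hV hM.2
      refine ⟨i, hi1, fun Y hY hYV hiY => ?_⟩
      rcases hc Y hY M.1 M.2 with h1 | h1
      · exact hi2 (h1 hiY)
      · exact hMmax ⟨Y, hY⟩ hYV ⟨h1, fun h2 => hi2 (h2 hiY)⟩
    · left
      push Not at hb
      intro Y hY
      rcases hc V hV Y hY with h1 | h1
      · exact h1
      · by_contra h2
        exact hb ⟨Y, hY⟩ ⟨h1, h2⟩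
  have h1 : {V ∈ S | ∀ Y ∈ S, V ⊆ Y}.Countable := by
    apply Set.Subsingleton.countable
    rintro V ⟨hV, hV'⟩ W ⟨hW, hW'⟩
    exact Subset.antisymm (hV' W hW) (hW' V hV)
  have h2 : ∀ i, {V ∈ S | u i ∈ V ∧ ∀ Y ∈ S, Y ⊂ V → u i ∉ Y}.Countable := by
    intro i
    apply Set.Subsingleton.countable
    rintro V ⟨hV, hV1, hV2⟩ W ⟨hW, hW1, hW2⟩
    by_contra hne
    rcases hc V hV W hW with h | h
    · exact hW2 V hV (h.ssubset_of_ne hne) hV1
    · exact hV2 W hW (h.ssubset_of_ne (Ne.symm hne)) hW1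
  refine (h1.union (countable_iUnion h2)).mono ?_
  intro V hV
  rcases key V hV with h | ⟨i, hi⟩
  · exact Or.inl ⟨hV, h⟩
  · exact Or.inr (mem_iUnion.2 ⟨i, hV, hi⟩)

end chains

/-! ### Regular open sets -/

section regopen

variable {X : Type*} [TopologicalSpace X]

/-- interior of the closure -/
def reg (U : Set X) : Set X := interior (closure U)

theorem reg_reg (U : Set X) : reg (reg U) = reg U := by
  apply Subset.antisymm
  · exact interior_mono (closure_minimal interior_subset isClosed_closure)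
  · exact isOpen_interior.subset_interior_closure

theorem reg_mono_of_detect {u : ℕ → X} (hu : DenseRange u) {U W : Set X} (hU : IsOpen U)
    (h : ∀ i, u i ∈ U → u i ∈ W) : reg U ⊆ reg W := by
  apply interior_mono
  apply closure_minimal _ isClosed_closure
  refine (hu.open_subset_closure_inter hU).trans (closure_mono ?_)
  rintro _ ⟨h1, i, rfl⟩
  exact h i h1

end regopen

/-! ### The main argument -/

theorem main (hO : OCA) {X : Type*} [TopologicalSpace X] (u : ℕ → X) (ℬ : Set (Set X))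
    (hu : DenseRange u)
    (hBase : IsTopologicalBasis ℬ)
    (hanti : ∀ 𝒜 ⊆ ℬ, Incomparable 𝒜 → 𝒜.Countable)
    (hNoeth : Noetherian ℬ)
    (hreg : ∀ x : X, ∀ O : Set X, IsOpen O → x ∈ O → ∃ B ∈ ℬ, x ∈ B ∧ closure B ⊆ O) :
    ∃ 𝒦 : Set (Set X), 𝒦.Countable ∧ (∀ C ∈ 𝒦, IsOpen C) ∧
      ∀ x : X, ∀ O : Set X, IsOpen O → x ∈ O → ∃ C ∈ 𝒦, x ∈ C ∧ C ⊆ O := by
  classical
  have hBo : ∀ B ∈ ℬ, IsOpen B := fun B hB => hBase.isOpen hB
  have hBreg : ∀ B ∈ ℬ, B ⊆ reg B := fun B hB => (hBo B hB).subset_interior_closure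
  have hregmono : ∀ U W : Set X, U ⊆ W → reg U ⊆ reg W := fun U W h =>
    interior_mono (closure_mono h)
  -- Step 1: the base is cut into countably many pieces whose regularisations form chains
  obtain ⟨F, hFcov, hF⟩ := chains_of_OCA hO ℬ (fun B => {i | u i ∈ reg B}) (by
    intro 𝒜 h𝒜 hne
    apply hanti 𝒜 h𝒜
    intro A hA B hB hAB hsub
    exact hne A hA B hB hAB (fun i hi => hregmono _ _ hsub hi))
  let 𝒱 : ℕ → Set (Set X) := fun n => reg '' (F n)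
  have hVo : ∀ n, ∀ V ∈ 𝒱 n, IsOpen V := by
    rintro n _ ⟨B, _, rfl⟩
    exact isOpen_interior
  have hVr : ∀ n, ∀ V ∈ 𝒱 n, reg V = V := by
    rintro n _ ⟨B, _, rfl⟩
    exact reg_reg B
  have hdet : ∀ U W : Set X, reg U = U → IsOpen W → ¬ W ⊆ U → ∃ j, u j ∈ W ∧ u j ∉ U := by
    intro U W hU hW hWU
    by_contra hcon
    push Not at hcon
    apply hWU
    calc W ⊆ reg W := hW.subset_interior_closure
      _ ⊆ reg U := reg_mono_of_detect hu hW hcon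
      _ = U := hU
  have hVd : ∀ n, Detect u (𝒱 n) := fun n U hU W hW h => hdet U W (hVr n U hU) (hVo n W hW) h
  have hVc : ∀ n, Chain' (𝒱 n) := by
    intro n U hU W hW
    obtain ⟨B, hB, rfl⟩ := hU
    obtain ⟨D, hD, rfl⟩ := hW
    rcases (hF n).2 B hB D hD with h | h
    · left
      have := reg_mono_of_detect (U := reg B) (W := reg D) hu isOpen_interior h
      rwa [reg_reg, reg_reg] at this
    · right
      have := reg_mono_of_detect (U := reg D) (W := reg B) hu isOpen_interior h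
      rwa [reg_reg, reg_reg] at this
  have hVbase : ∀ x : X, ∀ O : Set X, IsOpen O → x ∈ O →
      ∃ n, ∃ B ∈ ℬ, x ∈ B ∧ reg B ∈ 𝒱 n ∧ reg B ⊆ O := by
    intro x O hO' hx
    obtain ⟨B, hB, hxB, hBO⟩ := hreg x O hO' hx
    obtain ⟨n, hn⟩ := hFcov B hB
    exact ⟨n, B, hB, hxB, ⟨B, hn, rfl⟩, interior_subset.trans hBO⟩
  -- Step 2: the countable family `𝒞`
  have hL : ∀ n i, ∃ C ⊆ {U | U ∈ 𝒱 n ∧ u i ∉ U}, C.Countable ∧
      ∀ U ∈ {U | U ∈ 𝒱 n ∧ u i ∉ U}, ∃ c ∈ C, U ⊆ c := fun n i =>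
    exists_cofinal ((hVd n).mono fun U hU => hU.1) ((hVc n).mono fun U hU => hU.1)
  have hH : ∀ n i, ∃ C ⊆ {U | U ∈ 𝒱 n ∧ u i ∈ U}, C.Countable ∧
      ∀ U ∈ {U | U ∈ 𝒱 n ∧ u i ∈ U}, ∃ c ∈ C, c ⊆ U := fun n i =>
    exists_coinitial ((hVd n).mono fun U hU => hU.1) ((hVc n).mono fun U hU => hU.1)
  choose L hLsub hLc hLcof using hL
  choose H hHsub hHc hHcof using hH
  let 𝒞 : Set (Set X) := ⋃ n, ⋃ i, (L n i ∪ H n i)
  have hCc : 𝒞.Countable :=
    countable_iUnion fun n => countable_iUnion fun i => (hLc n i).union (hHc n i)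
  have hLC : ∀ n i, L n i ⊆ 𝒞 := fun n i c hc =>
    mem_iUnion.2 ⟨n, mem_iUnion.2 ⟨i, Or.inl hc⟩⟩
  have hHC : ∀ n i, H n i ⊆ 𝒞 := fun n i c hc =>
    mem_iUnion.2 ⟨n, mem_iUnion.2 ⟨i, Or.inr hc⟩⟩
  have hCo : ∀ C ∈ 𝒞, IsOpen C := by
    intro C hC
    obtain ⟨n, hn⟩ := mem_iUnion.1 hC
    obtain ⟨i, hi⟩ := mem_iUnion.1 hn
    rcases hi with hi | hi
    · exact hVo n C (hLsub n i hi).1
    · exact hVo n C (hHsub n i hi).1
  have P1 : ∀ n, ∀ W ∈ 𝒱 n, ∀ U ∈ 𝒱 n, ¬ U ⊆ W → ∃ C ∈ 𝒞, W ⊆ C ∧ C ⊆ U := by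
    intro n W hW U hU hUW
    obtain ⟨i, hi1, hi2⟩ := hVd n W hW U hU hUW
    obtain ⟨C, hC, hCU⟩ := hHcof n i U ⟨hU, hi1⟩
    refine ⟨C, hHC n i hC, ?_, hCU⟩
    rcases hVc n W hW C (hHsub n i hC).1 with h | h
    · exact h
    · exact absurd (h (hHsub n i hC).2) hi2
  have P3 : ∀ n, ∀ U ∈ 𝒱 n, ∀ i, u i ∈ U → ∃ C ∈ 𝒞, u i ∈ C ∧ C ⊆ U := by
    intro n U hU i hi
    obtain ⟨C, hC, hCU⟩ := hHcof n i U ⟨hU, hi⟩
    exact ⟨C, hHC n i hC, (hHsub n i hC).2, hCU⟩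
  -- Step 3
  let 𝒲 : ℕ → Set (Set X) := fun n => {V | V ∈ 𝒱 n ∧ ∃ B, ∃ x, B ∈ ℬ ∧ x ∈ B ∧ reg B = V ∧
    ∀ C ∈ 𝒞, x ∈ C → ¬ C ⊆ V}
  by_cases hW : ∀ n, (𝒲 n).Countable
  · refine ⟨𝒞 ∪ ⋃ n, 𝒲 n, hCc.union (countable_iUnion hW), ?_, ?_⟩
    · rintro C (hC | hC)
      · exact hCo C hC
      · obtain ⟨n, hn⟩ := mem_iUnion.1 hC
        exact hVo n C hn.1
    · intro x O hO' hx
      obtain ⟨n, B, hB, hxB, hBV, hBO⟩ := hVbase x O hO' hx
      by_cases hcase : ∃ C ∈ 𝒞, x ∈ C ∧ C ⊆ reg B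
      · obtain ⟨C, hC, hxC, hCB⟩ := hcase
        exact ⟨C, Or.inl hC, hxC, hCB.trans hBO⟩
      · push Not at hcase
        exact ⟨reg B, Or.inr (mem_iUnion.2 ⟨n, hBV, B, x, hB, hxB, rfl, hcase⟩),
          hBreg B hB hxB, hBO⟩
  exfalso
  push Not at hW
  obtain ⟨n, hWn⟩ := hW
  have hch : ∀ V, ∃ B, ∃ x, V ∈ 𝒲 n → (B ∈ ℬ ∧ x ∈ B ∧ reg B = V ∧ ∀ C ∈ 𝒞, x ∈ C → ¬ C ⊆ V) := by
    intro V
    by_cases hV : V ∈ 𝒲 n
    · obtain ⟨B, x, h⟩ := hV.2
      exact ⟨B, x, fun _ => h⟩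
    · exact ⟨∅, u 0, fun h => absurd h hV⟩
  choose b x hbx using hch
  have hb : ∀ V ∈ 𝒲 n, b V ∈ ℬ := fun V hV => (hbx V hV).1
  have hxb : ∀ V ∈ 𝒲 n, x V ∈ b V := fun V hV => (hbx V hV).2.1
  have hbr : ∀ V ∈ 𝒲 n, reg (b V) = V := fun V hV => (hbx V hV).2.2.1
  have hxC : ∀ V ∈ 𝒲 n, ∀ C ∈ 𝒞, x V ∈ C → ¬ C ⊆ V := fun V hV => (hbx V hV).2.2.2
  have hbV : ∀ V ∈ 𝒲 n, b V ⊆ V := by
    intro V hV
    have := hBreg _ (hb V hV)
    rwa [hbr V hV] at this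
  have hbinj : InjOn b (𝒲 n) := by
    intro V hV W hW' hVW
    rw [← hbr V hV, ← hbr W hW', hVW]
  have hWV : 𝒲 n ⊆ 𝒱 n := fun V hV => hV.1
  -- (Q1)
  have Q1 : ∀ V ∈ 𝒲 n, ∀ W ∈ 𝒲 n, V ⊆ W → V ≠ W → ¬ b W ⊆ b V := by
    intro V hV W hW' hVW hne hsub
    have hnWV : ¬ W ⊆ V := fun h => hne (Subset.antisymm hVW h)
    obtain ⟨C, hC, hVC, hCW⟩ := P1 n V (hWV hV) W (hWV hW') hnWV
    exact hxC W hW' C hC (hVC (hbV V hV (hsub (hxb W hW')))) hCW
  -- the codes by members of `𝒞`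
  have : Countable 𝒞 := hCc.to_subtype
  let c : Set X → Set 𝒞 := fun V => {C | (C : Set X) ⊆ b V}
  have Q2 : ∀ V ∈ 𝒲 n, ∀ W ∈ 𝒲 n, c W ⊆ c V → W ⊆ V := by
    intro V hV W hW' hc
    rw [← hbr V hV, ← hbr W hW']
    refine reg_mono_of_detect hu (hBo _ (hb W hW')) ?_
    intro i hi
    obtain ⟨m, B, hB, hiB, hBV, hBW⟩ := hVbase (u i) (b W) (hBo _ (hb W hW')) hi
    obtain ⟨C, hC, hiC, hCB⟩ := P3 m (reg B) hBV i (hBreg B hB hiB)
    exact hc (show (⟨C, hC⟩ : 𝒞) ∈ c W from hCB.trans hBW) hiC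
  have hcb : ∀ V W, b V ⊆ b W → c V ⊆ c W := fun V W h C hC => Subset.trans hC h
  -- Step 4
  obtain ⟨𝒲', hW'sub, hW'unc, hW'ch⟩ := chain_of_OCA hO (𝒲 n) c (by
    intro 𝒜 h𝒜 hne
    apply countable_of_injective_of_countable_image (f := b) (hbinj.mono h𝒜)
    apply hanti
    · rintro _ ⟨V, hV, rfl⟩
      exact hb V (h𝒜 hV)
    · rintro _ ⟨V, hV, rfl⟩ _ ⟨W, hW', rfl⟩ hne' hsub
      exact hne V hV W hW' (fun e => hne' (by rw [e])) (hcb _ _ hsub)) hWn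
  have R : ∀ V ∈ 𝒲', ∀ W ∈ 𝒲', V ⊆ W → c V ⊆ c W := by
    intro V hV W hW' hVW
    rcases hW'ch V hV W hW' with h | h
    · exact h
    · have := Q2 V (hW'sub hV) W (hW'sub hW') h
      rw [Subset.antisymm hVW this]
  have hW'c : Chain' 𝒲' := (hVc n).mono (hW'sub.trans hWV)
  have hW'd : Detect u 𝒲' := (hVd n).mono (hW'sub.trans hWV)
  -- Step 5
  let Split : ℕ → ℕ → Set X → Prop := fun m i U => U ∈ 𝒱 m ∧ U ∉ 𝒞 ∧
    ∃ V ∈ 𝒲', ∃ W ∈ 𝒲', u i ∉ V ∧ u i ∈ W ∧ U ⊆ b V ∧ ¬ U ⊆ b W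
  have hSplit' : ∀ m i U₁ U₂, Split m i U₁ → Split m i U₂ → U₁ ⊆ U₂ → U₁ = U₂ := by
    rintro m i U₁ U₂ ⟨h1, -, -, -, W₁, hW₁, -, hiW, -, hUW⟩ ⟨h2, -, V₂, hV₂, -, -, hiV, -, hUV, -⟩ h12
    by_contra hne
    have h21 : ¬ U₂ ⊆ U₁ := fun h => hne (Subset.antisymm h12 h)
    obtain ⟨C, hC, hUC, hCU⟩ := P1 m U₁ h1 U₂ h2 h21
    have hVW : V₂ ⊆ W₁ := by
      rcases hW'c V₂ hV₂ W₁ hW₁ with h | h
      · exact h
      · exact absurd (h hiW) hiV
    have h3 : (⟨C, hC⟩ : 𝒞) ∈ c V₂ := hCU.trans hUV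
    have h4 : C ⊆ b W₁ := R V₂ hV₂ W₁ hW₁ hVW h3
    exact hUW (hUC.trans h4)
  have hSplit : ∀ m i U₁ U₂, Split m i U₁ → Split m i U₂ → U₁ = U₂ := by
    intro m i U₁ U₂ h1 h2
    rcases hVc m U₁ h1.1 U₂ h2.1 with h | h
    · exact hSplit' m i U₁ U₂ h1 h2 h
    · exact (hSplit' m i U₂ U₁ h2 h1 h).symm
  let e : Set X → Set (ℕ × ℕ) := fun V => {p | ∃ U, Split p.1 p.2 U ∧ U ⊆ b V}
  have E1 : ∀ V ∈ 𝒲', ∀ W ∈ 𝒲', V ⊆ W → V ≠ W → e V ⊆ e W → b V ⊆ b W := by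
    intro V hV W hW' hVW hne he
    by_contra hcon
    obtain ⟨p, hpV, hpW⟩ := not_subset.1 hcon
    obtain ⟨m, B, hB, hpB, hBV, hBb⟩ := hVbase p (b V) (hBo _ (hb V (hW'sub hV))) hpV
    have hpU : p ∈ reg B := hBreg B hB hpB
    have hUC : reg B ∉ 𝒞 := by
      intro hC
      have h3 : (⟨reg B, hC⟩ : 𝒞) ∈ c V := hBb
      have h4 : reg B ⊆ b W := R V hV W hW' hVW h3
      exact hpW (h4 hpU)
    have hnWV : ¬ W ⊆ V := fun h => hne (Subset.antisymm hVW h)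
    obtain ⟨i, hi1, hi2⟩ := hW'd V hV W hW' hnWV
    have hsp : Split m i (reg B) :=
      ⟨hBV, hUC, V, hV, W, hW', hi2, hi1, hBb, fun h => hpW (h hpU)⟩
    have hmem : ((m, i) : ℕ × ℕ) ∈ e V := ⟨reg B, hsp, hBb⟩
    obtain ⟨U', hU', hU'W⟩ := he hmem
    have : U' = reg B := hSplit m i _ _ hU' hsp
    rw [this] at hU'W
    exact hpW (hU'W hpU)
  have E2 : ∀ V W, b V ⊆ b W → e V ⊆ e W := by
    rintro V W h p ⟨U, hU, hUV⟩
    exact ⟨U, hU, hUV.trans h⟩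
  -- Step 6
  let t : Set X → Set (ℕ ⊕ (ℕ × ℕ)) := fun V => {z | match z with
    | Sum.inl i => u i ∈ V
    | Sum.inr p => p ∈ e V}
  have ht : ∀ V W, t V ⊆ t W ↔ (∀ i, u i ∈ V → u i ∈ W) ∧ e V ⊆ e W := by
    intro V W
    constructor
    · intro h
      exact ⟨fun i hi => h (show Sum.inl i ∈ t V from hi),
        fun p hp => h (show Sum.inr p ∈ t V from hp)⟩
    · rintro ⟨h1, h2⟩ (i | p) hz
      · exact h1 i hz
      · exact h2 hz
  obtain ⟨𝒴, hYsub, hYunc, hYch⟩ := chain_of_OCA hO 𝒲' t (by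
    intro 𝒜 h𝒜 hne
    apply countable_of_injective_of_countable_image (f := b) (hbinj.mono (h𝒜.trans hW'sub))
    apply hanti
    · rintro _ ⟨V, hV, rfl⟩
      exact hb V (hW'sub (h𝒜 hV))
    · rintro _ ⟨V, hV, rfl⟩ _ ⟨W, hW', rfl⟩ hne' hsub
      have hVW : V ≠ W := fun e => hne' (by rw [e])
      rcases hW'c V (h𝒜 hV) W (h𝒜 hW') with h | h
      · apply hne V hV W hW' hVW
        rw [ht]
        exact ⟨fun i hi => h hi, E2 V W hsub⟩
      · exact Q1 W (hW'sub (h𝒜 hW')) V (hW'sub (h𝒜 hV)) h (Ne.symm hVW) hsub) hW'unc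
  have hYmono : ∀ V ∈ 𝒴, ∀ W ∈ 𝒴, V ⊂ W → b V ⊂ b W := by
    intro V hV W hW' hVW
    have hne : V ≠ W := hVW.ne
    have hsub : b V ⊆ b W := by
      apply E1 V (hYsub hV) W (hYsub hW') hVW.1 hne
      rcases hYch V hV W hW' with h | h
      · exact ((ht V W).1 h).2
      · exfalso
        obtain ⟨i, hi1, hi2⟩ := hW'd V (hYsub hV) W (hYsub hW') hVW.2
        exact hi2 (((ht W V).1 h).1 i hi1)
    refine hsub.ssubset_of_ne fun h => hne ?_
    exact hbinj (hW'sub (hYsub hV)) (hW'sub (hYsub hW')) h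
  -- Step 7
  obtain ⟨f, hfY, hf⟩ := exists_increasing (hW'd.mono hYsub) (hW'c.mono hYsub) hYunc
  exact hNoeth ⟨fun k => b (f k), fun k => hb _ (hW'sub (hYsub (hfY k))),
    fun k => hYmono _ (hfY k) _ (hfY (k + 1)) (hf k)⟩

/-- **Assuming OCA, every separable regular (T₁) space which has a Noetherian base of countable
rank is metrizable.** (A `T₃` space in Mathlib is a regular `T₀`, equivalently regular `T₁`,
space.) -/
theorem result : OCA → ∀ (X : Type*) [TopologicalSpace X] [T3Space X] [SeparableSpace X]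
    (ℬ : Set (Set X)), IsTopologicalBasis ℬ → Noetherian ℬ → CountableRank ℬ →
      MetrizableSpace X := by
  intro hO X _ _ _ ℬ hBase hN hR
  suffices hs : SecondCountableTopology X from metrizableSpace_of_t3_secondCountable X
  rcases isEmpty_or_nonempty X with hX | hX
  · infer_instance
  obtain ⟨u, hu⟩ := exists_dense_seq X
  -- every incomparable subfamily of the base is countable
  have hanti : ∀ 𝒜 ⊆ ℬ, Incomparable 𝒜 → 𝒜.Countable := by
    intro 𝒜 h𝒜 hinc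
    have h1 : ∀ i, {A ∈ 𝒜 | u i ∈ A}.Countable := by
      intro i
      apply hR (u i) _ (fun A hA => h𝒜 hA.1) (fun A hA => hA.2)
      intro A hA B hB
      exact hinc A hA.1 B hB.1
    refine ((countable_singleton (∅ : Set X)).union (countable_iUnion h1)).mono ?_
    intro A hA
    rcases A.eq_empty_or_nonempty with h | h
    · exact Or.inl h
    · obtain ⟨i, hi⟩ := hu.exists_mem_open (hBase.isOpen (h𝒜 hA)) h
      exact Or.inr (mem_iUnion.2 ⟨i, hA, hi⟩)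
  obtain ⟨𝒦, hKc, hKo, hK⟩ := main hO u ℬ hu hBase hanti hN (by
    intro x O hO' hx
    obtain ⟨B, hB, hxB, hBO⟩ := hBase.exists_closure_subset (hO'.mem_nhds hx)
    exact ⟨B, hB, hxB, hBO⟩)
  exact (isTopologicalBasis_of_isOpen_of_nhds hKo
    (fun x O hx hO' => hK x O hO' hx)).secondCountableTopology hKc

end Pool.Agent.Results.MP_d4a483_lc.OCAMetrizable
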